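import Mathlib

namespace Pool.Agent.H.MP_b0f4c2_gt

open Set Filter Topology Real
open scoped ContDiff RealInnerProductSpace

section defs
variable {V : Type} [NormedAddCommGroup V] [InnerProductSpace ℝ V]

def tang (A : Set V) (b : V) : Set V :=
  {v | ∃ c : ℝ → V, c 0 = b ∧ (∀ᶠ s in 𝓝 0, c s ∈ A) ∧ HasDerivAt c v 0}

def IsGeo (N : Set V) (γ : ℝ → V) : Prop :=
  ContDiff ℝ ∞ γ ∧ ∀ t, γ t ∈ N ∧ ∀ v ∈ tang N (γ t), ⟪deriv (deriv γ) t, v⟫ = 0

def LapEq {F : Type} [NormedAddCommGroup F] [NormedSpace ℝ F] (d : ℕ) (M : Set V)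
    (f g : V → F) : Prop :=
  ∀ p ∈ M, ∃ c : Fin d → ℝ → V, (∀ i, IsGeo M (c i) ∧ c i 0 = p) ∧
    Orthonormal ℝ (fun i => deriv (c i) 0) ∧
    - ∑ i, deriv (deriv (fun t => f (c i t))) 0 = g p

end defs

abbrev W := EuclideanSpace ℝ (Fin 14)

lemma hd {γ : ℝ → W} {v : W} {t : ℝ} (h : HasDerivAt γ v t) (j : Fin 14) :
    HasDerivAt (fun t => γ t j) (v j) t :=
  (EuclideanSpace.proj j : W →L[ℝ] ℝ).hasFDerivAt.comp_hasDerivAt t h

lemma hd' {γ : ℝ → W} {v : W} {t : ℝ} (h : ∀ j, HasDerivAt (fun t => γ t j) (v j) t) :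
    HasDerivAt γ v t :=
  (PiLp.continuousLinearEquiv 2 ℝ (fun _ : Fin 14 => ℝ)).symm.toContinuousLinearMap.hasFDerivAt.comp_hasDerivAt
    t (hasDerivAt_pi.2 h)

def sw (x y : W) : ℝ :=
  x 6 * y 6 + x 7 * y 7 + x 8 * y 8 + x 9 * y 9 + x 10 * y 10 + x 11 * y 11 + x 12 * y 12 + x
    13 * y 13

lemma inn (x y : W) : ⟪x, y⟫ =
    x 0 * y 0 + x 1 * y 1 + x 2 * y 2 + x 3 * y 3 + x 4 * y 4 + x 5 * y 5 + sw x y := by
  simp [PiLp.inner_apply, Fin.sum_univ_succ, sw, mul_comm]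
  ring

noncomputable def ka : ℝ := √(14 / 135) * (135 / 8) ^ 2

lemma ka_sq : ka ^ 2 * (8 / 135) ^ 4 = 14 / 135 := by
  unfold ka
  rw [mul_pow, Real.sq_sqrt (by norm_num)]; norm_num

def fU (x : W) : ℝ := x 0 * x 2 + x 1 * x 3
def fV (x : W) : ℝ := x 1 * x 2 - x 0 * x 3

noncomputable def FF (x : W) : Fin 5 → ℝ :=
  ![x 0 ^ 2 + x 1 ^ 2 - 8 / 135, x 2 ^ 2 + x 3 ^ 2 - 8 / 135,
    x 4 - ka * (fU x ^ 2 - fV x ^ 2), x 5 - ka * (2 * fU x * fV x), sw x x - 7 / 9]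

def dU (x v : W) : ℝ := v 0 * x 2 + x 0 * v 2 + (v 1 * x 3 + x 1 * v 3)
def dV (x v : W) : ℝ := v 1 * x 2 + x 1 * v 2 - (v 0 * x 3 + x 0 * v 3)

noncomputable def DF (x v : W) : Fin 5 → ℝ :=
  ![2 * (x 0 * v 0 + x 1 * v 1), 2 * (x 2 * v 2 + x 3 * v 3),
    v 4 - ka * (2 * fU x * dU x v - 2 * fV x * dV x v),
    v 5 - ka * (2 * dU x v * fV x + 2 * fU x * dV x v), 2 * sw x v]

def M : Set W := FF ⁻¹' {0}

lemma mem_M {x : W} : x ∈ M ↔ x 0 ^ 2 + x 1 ^ 2 = 8 / 135 ∧ x 2 ^ 2 + x 3 ^ 2 = 8 / 135 ∧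
    x 4 = ka * (fU x ^ 2 - fV x ^ 2) ∧ x 5 = ka * (2 * fU x * fV x) ∧ sw x x = 7 / 9 := by
  simp only [M, mem_preimage, mem_singleton_iff, funext_iff, Fin.forall_fin_succ, FF]
  simp [sub_eq_zero]

lemma hd_F {γ : ℝ → W} {v : W} {t : ℝ} (h : HasDerivAt γ v t) :
    HasDerivAt (fun r => FF (γ r)) (DF (γ t) v) t := by
  have hU : HasDerivAt (fun r => fU (γ r)) (dU (γ t) v) t :=
    ((hd h 0).mul (hd h 2)).add ((hd h 1).mul (hd h 3))
  have hV : HasDerivAt (fun r => fV (γ r)) (dV (γ t) v) t :=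
    ((hd h 1).mul (hd h 2)).sub ((hd h 0).mul (hd h 3))
  rw [hasDerivAt_pi]
  intro i
  fin_cases i
  · refine HasDerivAt.congr_deriv ((((hd h 0).pow 2).add ((hd h 1).pow 2)).sub_const _) ?_
    simp [DF]; ring
  · refine HasDerivAt.congr_deriv ((((hd h 2).pow 2).add ((hd h 3).pow 2)).sub_const _) ?_
    simp [DF]; ring
  · refine HasDerivAt.congr_deriv ((hd h 4).sub (((hU.pow 2).sub (hV.pow 2)).const_mul ka)) ?_
    simp [DF]
  · refine HasDerivAt.congr_deriv ((hd h 5).sub (((hU.const_mul 2).mul hV).const_mul ka)) ?_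
    simp [DF]
  · have q := fun j => (hd h j).mul (hd h j)
    refine HasDerivAt.congr_deriv (((((((((q 6).add (q 7)).add (q 8)).add (q 9)).add (q 10)).add
      (q 11)).add (q 12)).add (q 13)).sub_const _) ?_
    simp [DF, sw]; ring

lemma FF_smooth : ContDiff ℝ ∞ FF := by
  rw [contDiff_pi]
  intro i
  fin_cases i <;> simp [FF, fU, fV, sw] <;> fun_prop

lemma fderiv_FF (x v : W) : fderiv ℝ FF x v = DF x v := by
  have h1 : HasDerivAt (fun r : ℝ => x + r • v) v 0 := by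
    simpa using ((hasDerivAt_id (0 : ℝ)).smul_const v).const_add x
  have h2 : HasFDerivAt FF (fderiv ℝ FF x) (x + (0 : ℝ) • v) := by
    simpa using (FF_smooth.differentiable (by simp) x).hasFDerivAt
  have h3 := HasFDerivAt.comp_hasDerivAt (f := fun r : ℝ => x + r • v) (0 : ℝ) h2 h1
  simpa using h3.unique (hd_F h1)

lemma FF_surj {x : W} (hx : x ∈ M) : Function.Surjective (fderiv ℝ FF x) := by
  obtain ⟨h0, h1, -, -, h4⟩ := mem_M.1 hx
  intro y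
  obtain ⟨a, ha⟩ : ∃ a, a = y 0 * 135 / 16 := ⟨_, rfl⟩
  obtain ⟨b, hb⟩ : ∃ b, b = y 1 * 135 / 16 := ⟨_, rfl⟩
  obtain ⟨e, he⟩ : ∃ e, e = y 4 * 9 / 14 := ⟨_, rfl⟩
  refine ⟨!₂[a * x 0, a * x 1, b * x 2, b * x 3, y 2 + ka * (2 * (a + b) * (fU x ^ 2 - fV x ^ 2)), y 3
    + ka * (4 * (a + b) * fU x * fV x), e * x 6, e * x 7, e * x 8, e * x 9, e * x 10, e * x 11,
    e * x 12, e * x 13], ?_⟩
  rw [fderiv_FF]
  unfold sw at h4
  funext i
  fin_cases i <;> simp [DF, dU, dV, fU, fV, sw]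
  · rw [ha]; linear_combination (y 0 * 135 / 8) * h0
  · rw [hb]; linear_combination (y 1 * 135 / 8) * h1
  · ring
  · ring
  · rw [he]; linear_combination (y 4 * 9 / 7) * h4

lemma tang_DF {x v : W} (h : v ∈ tang M x) : DF x v = 0 := by
  obtain ⟨c, rfl, h1, h2⟩ := h
  exact (hd_F h2).unique ((hasDerivAt_const (0 : ℝ) (0 : Fin 5 → ℝ)).congr_of_eventuallyEq h1)

noncomputable def NN (a b c e : ℝ) (x : W) : W :=
  !₂[a * x 0, a * x 1, b * x 2, b * x 3, c * x 4, c * x 5, e * x 6, e * x 7, e * x 8, e * x 9,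
    e * x 10, e * x 11, e * x 12, e * x 13]

lemma NN_perp (a b c e : ℝ) {x v : W} (hx : x ∈ M) (h : v ∈ tang M x) :
    ⟪NN a b c e x, v⟫ = 0 := by
  obtain ⟨-, -, h2, h3, -⟩ := mem_M.1 hx
  have k := tang_DF h
  have k0 := congrFun k 0
  have k1 := congrFun k 1
  have k2 := congrFun k 2
  have k3 := congrFun k 3
  have k4 := congrFun k 4
  simp [DF] at k0 k1 k2 k3 k4
  have e1 : fU x * dU x v + fV x * dV x v = 0 := by
    unfold fU fV dU dV
    linear_combination (x 2 ^ 2 + x 3 ^ 2) * k0 + (x 0 ^ 2 + x 1 ^ 2) * k1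
  have e2 : x 4 * v 4 + x 5 * v 5 = 0 := by
    rw [h2, h3, sub_eq_zero.1 k2, sub_eq_zero.1 k3]
    linear_combination 2 * ka ^ 2 * (fU x ^ 2 + fV x ^ 2) * e1
  rw [inn]
  unfold sw at *
  simp [NN]
  linear_combination a * k0 + b * k1 + c * e2 + e * k4

noncomputable def cur (a b s : ℝ) (p u : W) (t : ℝ) : W :=
  !₂[cos (a * t) * p 0 - sin (a * t) * p 1, sin (a * t) * p 0 + cos (a * t) * p 1, cos (b * t)
    * p 2 - sin (b * t) * p 3, sin (b * t) * p 2 + cos (b * t) * p 3, cos (2 * (a - b) * t) * p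
    4 - sin (2 * (a - b) * t) * p 5, sin (2 * (a - b) * t) * p 4 + cos (2 * (a - b) * t) * p 5,
    cos (s * t) * p 6 + sin (s * t) * u 6, cos (s * t) * p 7 + sin (s * t) * u 7, cos (s * t) *
    p 8 + sin (s * t) * u 8, cos (s * t) * p 9 + sin (s * t) * u 9, cos (s * t) * p 10 + sin (s
    * t) * u 10, cos (s * t) * p 11 + sin (s * t) * u 11, cos (s * t) * p 12 + sin (s * t) * u
    12, cos (s * t) * p 13 + sin (s * t) * u 13]

noncomputable def cur1 (a b s : ℝ) (p u : W) (t : ℝ) : W :=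
  !₂[-(a * (sin (a * t) * p 0 + cos (a * t) * p 1)), a * (cos (a * t) * p 0 - sin (a * t) * p
    1), -(b * (sin (b * t) * p 2 + cos (b * t) * p 3)), b * (cos (b * t) * p 2 - sin (b * t) * p
    3), -(2 * (a - b) * (sin (2 * (a - b) * t) * p 4 + cos (2 * (a - b) * t) * p 5)), 2 * (a -
    b) * (cos (2 * (a - b) * t) * p 4 - sin (2 * (a - b) * t) * p 5), s * (cos (s * t) * u 6 -
    sin (s * t) * p 6), s * (cos (s * t) * u 7 - sin (s * t) * p 7), s * (cos (s * t) * u 8 -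
    sin (s * t) * p 8), s * (cos (s * t) * u 9 - sin (s * t) * p 9), s * (cos (s * t) * u 10 -
    sin (s * t) * p 10), s * (cos (s * t) * u 11 - sin (s * t) * p 11), s * (cos (s * t) * u 12
    - sin (s * t) * p 12), s * (cos (s * t) * u 13 - sin (s * t) * p 13)]

lemma hc (a t : ℝ) : HasDerivAt (fun t => cos (a * t)) (-(a * sin (a * t))) t := by
  simpa [mul_comm] using ((hasDerivAt_id t).const_mul a).cos

lemma hs (a t : ℝ) : HasDerivAt (fun t => sin (a * t)) (a * cos (a * t)) t := by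
  simpa [mul_comm] using ((hasDerivAt_id t).const_mul a).sin

lemma r1 (a x y t : ℝ) : HasDerivAt (fun t => cos (a * t) * x - sin (a * t) * y)
    (-(a * (sin (a * t) * x + cos (a * t) * y))) t :=
  HasDerivAt.congr_deriv (((hc a t).mul_const x).sub ((hs a t).mul_const y)) (by ring)

lemma r2 (a x y t : ℝ) : HasDerivAt (fun t => sin (a * t) * x + cos (a * t) * y)
    (a * (cos (a * t) * x - sin (a * t) * y)) t :=
  HasDerivAt.congr_deriv (((hs a t).mul_const x).add ((hc a t).mul_const y)) (by ring)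

lemma r3 (a x y t : ℝ) : HasDerivAt (fun t => cos (a * t) * x + sin (a * t) * y)
    (a * (cos (a * t) * y - sin (a * t) * x)) t :=
  HasDerivAt.congr_deriv (((hc a t).mul_const x).add ((hs a t).mul_const y)) (by ring)

lemma s1 (a x y t : ℝ) : HasDerivAt (fun t => -(a * (sin (a * t) * x + cos (a * t) * y)))
    (-a ^ 2 * (cos (a * t) * x - sin (a * t) * y)) t :=
  HasDerivAt.congr_deriv ((r2 a x y t).const_mul a).neg (by ring)

lemma s2 (a x y t : ℝ) : HasDerivAt (fun t => a * (cos (a * t) * x - sin (a * t) * y))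
    (-a ^ 2 * (sin (a * t) * x + cos (a * t) * y)) t :=
  HasDerivAt.congr_deriv ((r1 a x y t).const_mul a) (by ring)

lemma s3 (a x y t : ℝ) : HasDerivAt (fun t => a * (cos (a * t) * y - sin (a * t) * x))
    (-a ^ 2 * (cos (a * t) * x + sin (a * t) * y)) t :=
  HasDerivAt.congr_deriv ((r1 a y x t).const_mul a) (by ring)

lemma hd_cur (a b s : ℝ) (p u : W) (t : ℝ) : HasDerivAt (cur a b s p u) (cur1 a b s p u t) t := by
  apply hd'
  intro j
  fin_cases j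
  exacts [r1 _ _ _ _, r2 _ _ _ _, r1 _ _ _ _, r2 _ _ _ _, r1 _ _ _ _, r2 _ _ _ _,
    r3 _ _ _ _, r3 _ _ _ _, r3 _ _ _ _, r3 _ _ _ _, r3 _ _ _ _, r3 _ _ _ _, r3 _ _ _ _, r3 _ _ _ _]

lemma hd_cur1 (a b s : ℝ) (p u : W) (t : ℝ) : HasDerivAt (cur1 a b s p u)
    (NN (-a ^ 2) (-b ^ 2) (-(2 * (a - b)) ^ 2) (-s ^ 2) (cur a b s p u t)) t := by
  apply hd'
  intro j
  fin_cases j
  exacts [s1 _ _ _ _, s2 _ _ _ _, s1 _ _ _ _, s2 _ _ _ _, s1 _ _ _ _, s2 _ _ _ _,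
    s3 _ _ _ _, s3 _ _ _ _, s3 _ _ _ _, s3 _ _ _ _, s3 _ _ _ _, s3 _ _ _ _, s3 _ _ _ _, s3 _ _ _ _]

lemma deriv_cur (a b s : ℝ) (p u : W) : deriv (cur a b s p u) = cur1 a b s p u :=
  funext fun t => (hd_cur a b s p u t).deriv

lemma dd_cur (a b s : ℝ) (p u : W) (t : ℝ) : deriv (deriv (cur a b s p u)) t =
    NN (-a ^ 2) (-b ^ 2) (-(2 * (a - b)) ^ 2) (-s ^ 2) (cur a b s p u t) := by
  rw [deriv_cur]; exact (hd_cur1 a b s p u t).deriv

lemma cur_zero (a b s : ℝ) (p u : W) : cur a b s p u 0 = p := by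
  ext j
  fin_cases j <;> simp [cur]

lemma cur_smooth (a b s : ℝ) (p u : W) : ContDiff ℝ ∞ (cur a b s p u) := by
  rw [contDiff_euclidean]
  intro j
  fin_cases j <;> simp [cur] <;> fun_prop

lemma fU_cur (a b s : ℝ) (p u : W) (t : ℝ) : fU (cur a b s p u t) =
    cos ((a - b) * t) * fU p - sin ((a - b) * t) * fV p := by
  rw [sub_mul, cos_sub, sin_sub]
  simp [fU, fV, cur]; ring

lemma fV_cur (a b s : ℝ) (p u : W) (t : ℝ) : fV (cur a b s p u t) =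
    sin ((a - b) * t) * fU p + cos ((a - b) * t) * fV p := by
  rw [sub_mul, cos_sub, sin_sub]
  simp [fU, fV, cur]; ring

lemma cur_mem (a b s : ℝ) {p u : W} (hp : p ∈ M) (h1 : sw p u = 0) (h2 : sw u u = 7 / 9) (t : ℝ) :
    cur a b s p u t ∈ M := by
  obtain ⟨k0, k1, k2, k3, k4⟩ := mem_M.1 hp
  rw [mem_M, fU_cur, fV_cur]
  have e : 2 * (a - b) * t = 2 * ((a - b) * t) := by ring
  refine ⟨?_, ?_, ?_, ?_, ?_⟩
  · simp [cur]
    linear_combination (p 0 ^ 2 + p 1 ^ 2) * sin_sq_add_cos_sq (a * t) + k0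
  · simp [cur]
    linear_combination (p 2 ^ 2 + p 3 ^ 2) * sin_sq_add_cos_sq (b * t) + k1
  · have : cur a b s p u t 4 = cos (2 * (a - b) * t) * p 4 - sin (2 * (a - b) * t) * p 5 := rfl
    rw [this, e, cos_two_mul', sin_two_mul, k2, k3]; ring
  · have : cur a b s p u t 5 = sin (2 * (a - b) * t) * p 4 + cos (2 * (a - b) * t) * p 5 := rfl
    rw [this, e, cos_two_mul', sin_two_mul, k2, k3]; ring
  · unfold sw at *
    simp [cur]
    linear_combination (cos (s * t)) ^ 2 * k4 + 2 * cos (s * t) * sin (s * t) * h1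
      + (sin (s * t)) ^ 2 * h2 + 7 / 9 * sin_sq_add_cos_sq (s * t)

lemma cur_geo (a b s : ℝ) {p u : W} (hp : p ∈ M) (h1 : sw p u = 0) (h2 : sw u u = 7 / 9) :
    IsGeo M (cur a b s p u) :=
  ⟨cur_smooth a b s p u, fun t => ⟨cur_mem a b s hp h1 h2 t, fun v hv => by
    rw [dd_cur]; exact NN_perp _ _ _ _ (cur_mem a b s hp h1 h2 t) hv⟩⟩

lemma dd_fU (a b s : ℝ) (p u : W) :
    deriv (deriv (fun t => fU (cur a b s p u t))) 0 = -(a - b) ^ 2 * fU p := by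
  simp only [fU_cur]
  have : deriv (fun t => cos ((a - b) * t) * fU p - sin ((a - b) * t) * fV p) = _ :=
    funext fun t => (r1 _ _ _ t).deriv
  rw [this, (s1 _ _ _ 0).deriv]
  simp

end Pool.Agent.H.MP_b0f4c2_gt
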