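import Pool.Agent.H.MP_b0f4c2_gt.D

namespace Pool.Agent.H.MP_b0f4c2_gt

open Set Filter Topology Real
open scoped ContDiff RealInnerProductSpace

lemma uv_sq {x : W} (hx : x ∈ M) : fU x ^ 2 + fV x ^ 2 = (8 / 135) ^ 2 := by
  obtain ⟨k0, k1, -, -, -⟩ := mem_M.1 hx
  unfold fU fV
  linear_combination (x 2 ^ 2 + x 3 ^ 2) * k0 + 8 / 135 * k1

lemma z3_sq {x : W} (hx : x ∈ M) : x 4 ^ 2 + x 5 ^ 2 = 14 / 135 := by
  obtain ⟨-, -, k2, k3, -⟩ := mem_M.1 hx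
  have := uv_sq hx
  rw [k2, k3]
  linear_combination ka_sq + ka ^ 2 * (fU x ^ 2 + fV x ^ 2 + (8 / 135) ^ 2) * this

lemma M_sphere : M ⊆ Metric.sphere (0 : W) 1 := by
  intro x hx
  obtain ⟨k0, k1, -, -, k4⟩ := mem_M.1 hx
  have k := z3_sq hx
  rw [mem_sphere_zero_iff_norm, ← sq_eq_sq₀ (norm_nonneg _) zero_le_one,
    ← real_inner_self_eq_norm_sq, inn]
  linear_combination k0 + k1 + k + k4

lemma M_compact : IsCompact M :=
  (isCompact_sphere (0 : W) 1).of_isClosed_subset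
    (isClosed_singleton.preimage FF_smooth.continuous) M_sphere

noncomputable def par (q : ℂ × ℂ × EuclideanSpace ℝ (Fin 8)) : W :=
  !₂[q.1.re, q.1.im, q.2.1.re, q.2.1.im,
    ka * ((q.1.re * q.2.1.re + q.1.im * q.2.1.im) ^ 2 - (q.1.im * q.2.1.re - q.1.re * q.2.1.im) ^ 2),
    ka * (2 * (q.1.re * q.2.1.re + q.1.im * q.2.1.im) * (q.1.im * q.2.1.re - q.1.re * q.2.1.im)),
    q.2.2 0, q.2.2 1, q.2.2 2, q.2.2 3, q.2.2 4, q.2.2 5, q.2.2 6, q.2.2 7]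

lemma par_cont : Continuous par := by
  refine (PiLp.continuous_toLp 2 _).comp (continuous_pi fun j => ?_)
  fin_cases j <;> simp <;> fun_prop

lemma sph_c (z : ℂ) : z ∈ Metric.sphere (0 : ℂ) √(8 / 135) ↔ z.re ^ 2 + z.im ^ 2 = 8 / 135 := by
  rw [mem_sphere_zero_iff_norm, Complex.norm_eq_sqrt_sq_add_sq,
    Real.sqrt_inj (by positivity) (by norm_num)]

lemma sph_e (z : EuclideanSpace ℝ (Fin 8)) : z ∈ Metric.sphere 0 √(7 / 9) ↔
    z 0 * z 0 + z 1 * z 1 + z 2 * z 2 + z 3 * z 3 + z 4 * z 4 + z 5 * z 5 + z 6 * z 6 + z 7 * z 7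
      = 7 / 9 := by
  rw [mem_sphere_zero_iff_norm, EuclideanSpace.norm_eq, Real.sqrt_inj (by positivity) (by norm_num)]
  simp [Fin.sum_univ_eight, sq]

lemma M_conn : IsConnected M := by
  have h1 : IsConnected (Metric.sphere (0 : ℂ) √(8 / 135)) :=
    isConnected_sphere (by rw [Complex.rank_real_complex]; norm_num) _ (by positivity)
  have h2 : IsConnected (Metric.sphere (0 : EuclideanSpace ℝ (Fin 8)) √(7 / 9)) :=
    isConnected_sphere (by rw [← Module.finrank_eq_rank, finrank_euclideanSpace_fin]; norm_num) _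
      (by positivity)
  have h3 := (h1.prod (h1.prod h2)).image par par_cont.continuousOn
  convert h3 using 1
  ext x
  constructor
  · intro hx
    obtain ⟨k0, k1, k2, k3, k4⟩ := mem_M.1 hx
    refine ⟨(⟨x 0, x 1⟩, ⟨x 2, x 3⟩, !₂[x 6, x 7, x 8, x 9, x 10, x 11, x 12, x 13]),
      ⟨(sph_c _).2 k0, (sph_c _).2 k1, (sph_e _).2 k4⟩, ?_⟩
    ext j
    fin_cases j
    exacts [rfl, rfl, rfl, rfl, k2.symm, k3.symm, rfl, rfl, rfl, rfl, rfl, rfl, rfl, rfl]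
  · rintro ⟨q, ⟨a, b, c⟩, rfl⟩
    exact mem_M.2 ⟨(sph_c _).1 a, (sph_c _).1 b, rfl, rfl, (sph_e _).1 c⟩

lemma exists_frame (p : W) : ∃ u : Fin 7 → W, Orthonormal ℝ u ∧ ∀ j,
    u j 0 = 0 ∧ u j 1 = 0 ∧ u j 2 = 0 ∧ u j 3 = 0 ∧ u j 4 = 0 ∧ u j 5 = 0 ∧ sw p (u j) = 0 := by
  obtain ⟨g, hg⟩ : ∃ g : Fin 7 → W, g = ![EuclideanSpace.single 0 1, EuclideanSpace.single 1 1,
    EuclideanSpace.single 2 1, EuclideanSpace.single 3 1, EuclideanSpace.single 4 1,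
    EuclideanSpace.single 5 1, p] := ⟨_, rfl⟩
  obtain ⟨K, hK⟩ : ∃ K : Submodule ℝ W, K = Submodule.span ℝ (range g) := ⟨_, rfl⟩
  have h1 : Module.finrank ℝ K ≤ 7 := by
    rw [hK]; exact (finrank_range_le_card (R := ℝ) g).trans (by simp)
  have h2 := K.finrank_add_finrank_orthogonal
  rw [finrank_euclideanSpace_fin] at h2
  have h3 : 7 ≤ Module.finrank ℝ Kᗮ := by omega
  have ho := (stdOrthonormalBasis ℝ Kᗮ).orthonormal.comp (Fin.castLE h3) (Fin.castLE_injective h3)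
  refine ⟨fun j => (stdOrthonormalBasis ℝ Kᗮ (Fin.castLE h3 j) : W),
    (Kᗮ.subtypeₗᵢ.orthonormal_comp_iff).2 ho, fun j => ?_⟩
  obtain ⟨u, hu⟩ : ∃ u : W, u = (stdOrthonormalBasis ℝ Kᗮ (Fin.castLE h3 j) : W) := ⟨_, rfl⟩
  have hm : u ∈ Kᗮ := hu ▸ (stdOrthonormalBasis ℝ Kᗮ (Fin.castLE h3 j)).2
  have k : ∀ i, ⟪g i, u⟫ = 0 := fun i =>
    Submodule.inner_right_of_mem_orthogonal (hK ▸ Submodule.subset_span (mem_range_self i)) hm
  have k0 := k 0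
  have k1 := k 1
  have k2 := k 2
  have k3 := k 3
  have k4 := k 4
  have k5 := k 5
  have k6 := k 6
  simp [hg, EuclideanSpace.inner_single_left] at k0 k1 k2 k3 k4 k5 k6
  rw [inn, k0, k1, k2, k3, k4, k5] at k6
  simp only [← hu]
  exact ⟨k0, k1, k2, k3, k4, k5, by linarith⟩

noncomputable def ca : Fin 9 → ℝ := ![√135 / 4, 3 / 4, 0, 0, 0, 0, 0, 0, 0]
noncomputable def cb : Fin 9 → ℝ := ![√135 / 4, -3 / 4, 0, 0, 0, 0, 0, 0, 0]
noncomputable def cs : Fin 9 → ℝ :=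
  ![0, 0, 3 / √7, 3 / √7, 3 / √7, 3 / √7, 3 / √7, 3 / √7, 3 / √7]
def ci : Fin 9 → Fin 7 := ![0, 0, 0, 1, 2, 3, 4, 5, 6]

lemma cur1_sph {p u : W} (h : u 0 = 0 ∧ u 1 = 0 ∧ u 2 = 0 ∧ u 3 = 0 ∧ u 4 = 0 ∧ u 5 = 0) :
    cur1 0 0 (3 / √7) p ((√7 / 3) • u) 0 = u := by
  obtain ⟨h0, h1, h2, h3, h4, h5⟩ := h
  have : √7 ≠ 0 := by positivity
  ext j
  fin_cases j <;> simp [cur1, h0, h1, h2, h3, h4, h5] <;> field_simp

lemma inn_tor (a b a' b' : ℝ) {p : W} (u u' : W) (hp : p ∈ M) :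
    ⟪cur1 a b 0 p u 0, cur1 a' b' 0 p u' 0⟫ =
      8 / 135 * (a * a' + b * b') + 56 / 135 * ((a - b) * (a' - b')) := by
  obtain ⟨k0, k1, -, -, -⟩ := mem_M.1 hp
  have k := z3_sq hp
  rw [inn]
  simp [cur1, sw]
  linear_combination a * a' * k0 + b * b' * k1 + 4 * (a - b) * (a' - b') * k

lemma inn_mix (a b : ℝ) (p w : W) {u : W}
    (h : u 0 = 0 ∧ u 1 = 0 ∧ u 2 = 0 ∧ u 3 = 0 ∧ u 4 = 0 ∧ u 5 = 0) :
    ⟪cur1 a b 0 p w 0, u⟫ = 0 := by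
  obtain ⟨h0, h1, h2, h3, h4, h5⟩ := h
  rw [inn]
  simp [cur1, sw, h0, h1, h2, h3, h4, h5]

lemma on9 (A B : W) (u : Fin 7 → W) (ho : Orthonormal ℝ u) (t1 : ⟪A, A⟫ = 1) (t2 : ⟪B, B⟫ = 1)
    (t3 : ⟪A, B⟫ = 0) (mA : ∀ j, ⟪A, u j⟫ = 0) (mB : ∀ j, ⟪B, u j⟫ = 0) :
    Orthonormal ℝ ![A, B, u 0, u 1, u 2, u 3, u 4, u 5, u 6] := by
  have e : ![A, B, u 0, u 1, u 2, u 3, u 4, u 5, u 6] = Fin.cons A (Fin.cons B u) := by
    funext i
    fin_cases i <;> rfl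
  rw [e, orthonormal_iff_ite]
  rw [orthonormal_iff_ite] at ho
  have nA : ∀ j, ⟪u j, A⟫ = 0 := fun j => by rw [real_inner_comm]; exact mA j
  have nB : ∀ j, ⟪u j, B⟫ = 0 := fun j => by rw [real_inner_comm]; exact mB j
  have t4 : ⟪B, A⟫ = 0 := by rw [real_inner_comm]; exact t3
  simp only [Fin.forall_fin_succ (n := 8), Fin.forall_fin_succ (n := 7), Fin.cons_zero,
    Fin.cons_succ, t1, t2, t3, t4, mA, mB, nA, nB, ho, Fin.succ_inj, Fin.succ_ne_zero,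
    (Fin.succ_ne_zero _).symm, if_true, if_false, implies_true, and_self]

lemma frame {p : W} (hp : p ∈ M) : ∃ u : Fin 9 → W, (∀ i, sw p (u i) = 0 ∧ sw (u i) (u i) = 7 / 9) ∧
    Orthonormal ℝ (fun i => deriv (cur (ca i) (cb i) (cs i) p (u i)) 0) := by
  obtain ⟨u, ho, hu⟩ := exists_frame p
  have hu' : ∀ j, u j 0 = 0 ∧ u j 1 = 0 ∧ u j 2 = 0 ∧ u j 3 = 0 ∧ u j 4 = 0 ∧ u j 5 = 0 :=
    fun j => ⟨(hu j).1, (hu j).2.1, (hu j).2.2.1, (hu j).2.2.2.1, (hu j).2.2.2.2.1,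
      (hu j).2.2.2.2.2.1⟩
  have h7 : √7 * √7 = 7 := Real.mul_self_sqrt (by norm_num)
  have h135 : √135 * √135 = 135 := Real.mul_self_sqrt (by norm_num)
  have ho' := ho
  rw [orthonormal_iff_ite] at ho
  refine ⟨fun i => (√7 / 3) • u (ci i), fun i => ⟨?_, ?_⟩, ?_⟩
  · have := (hu (ci i)).2.2.2.2.2.2
    unfold sw at *
    simp only [PiLp.smul_apply, smul_eq_mul]
    linear_combination √7 / 3 * this
  · obtain ⟨h0, h1, h2, h3, h4, h5⟩ := hu' (ci i)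
    have := ho (ci i) (ci i)
    rw [inn, h0, h1, h2, h3, h4, h5, if_pos rfl] at this
    unfold sw at *
    simp only [PiLp.smul_apply, smul_eq_mul]
    linear_combination √7 * √7 / 9 * this + 1 / 9 * h7
  · simp only [deriv_cur]
    have e : (fun i => cur1 (ca i) (cb i) (cs i) p ((√7 / 3) • u (ci i)) 0) =
        ![cur1 (√135 / 4) (√135 / 4) 0 p ((√7 / 3) • u 0) 0,
          cur1 (3 / 4) (-3 / 4) 0 p ((√7 / 3) • u 0) 0, u 0, u 1, u 2, u 3, u 4, u 5, u 6] := by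
      funext i
      fin_cases i
      exacts [rfl, rfl, cur1_sph (hu' 0), cur1_sph (hu' 1), cur1_sph (hu' 2), cur1_sph (hu' 3),
        cur1_sph (hu' 4), cur1_sph (hu' 5), cur1_sph (hu' 6)]
    rw [e]
    generalize (√7 / 3) • u 0 = w
    have m1 := fun a b j => inn_mix a b p w (hu' j)
    have t1 : ⟪cur1 (√135 / 4) (√135 / 4) 0 p w 0, cur1 (√135 / 4) (√135 / 4) 0 p w 0⟫ = 1 := by
      rw [inn_tor _ _ _ _ _ _ hp]; linear_combination 1 / 135 * h135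
    have t2 : ⟪cur1 (3 / 4) (-3 / 4) 0 p w 0, cur1 (3 / 4) (-3 / 4) 0 p w 0⟫ = 1 := by
      rw [inn_tor _ _ _ _ _ _ hp]; norm_num
    have t3 : ⟪cur1 (√135 / 4) (√135 / 4) 0 p w 0, cur1 (3 / 4) (-3 / 4) 0 p w 0⟫ = 0 := by
      rw [inn_tor _ _ _ _ _ _ hp]; ring
    have mA := m1 (√135 / 4) (√135 / 4)
    have mB := m1 (3 / 4) (-3 / 4)
    clear m1
    generalize cur1 (√135 / 4) (√135 / 4) 0 p w 0 = A at *
    generalize cur1 (3 / 4) (-3 / 4) 0 p w 0 = B at *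
    exact on9 A B u ho' t1 t2 t3 mA mB

lemma lap_id : LapEq 9 M (fun x : W => x) (fun x => (9 : ℝ) • x) := by
  intro p hp
  obtain ⟨u, hu, ho⟩ := frame hp
  refine ⟨fun i => cur (ca i) (cb i) (cs i) p (u i),
    fun i => ⟨cur_geo _ _ _ hp (hu i).1 (hu i).2, cur_zero _ _ _ _ _⟩, ho, ?_⟩
  have h7 : √7 ^ 2 = 7 := Real.sq_sqrt (by norm_num)
  have h135 : √135 ^ 2 = 135 := Real.sq_sqrt (by norm_num)
  have e : ∀ i, deriv (deriv (fun t => cur (ca i) (cb i) (cs i) p (u i) t)) 0 =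
      NN (-(ca i) ^ 2) (-(cb i) ^ 2) (-(2 * (ca i - cb i)) ^ 2) (-(cs i) ^ 2) p := by
    intro i
    have := dd_cur (ca i) (cb i) (cs i) p (u i) 0
    rwa [cur_zero] at this
  simp only [e]
  have sa : ∑ i, (ca i) ^ 2 = 9 := by
    simp [Fin.sum_univ_succ, ca, div_pow, h135]; norm_num
  have sb : ∑ i, (cb i) ^ 2 = 9 := by
    simp [Fin.sum_univ_succ, cb, div_pow, h135]; norm_num
  have sc : ∑ i, (2 * (ca i - cb i)) ^ 2 = 9 := by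
    simp [Fin.sum_univ_succ, ca, cb]; norm_num
  have sd : ∑ i, (cs i) ^ 2 = 9 := by
    simp [Fin.sum_univ_succ, cs, div_pow, h7]; norm_num
  have key : ∀ (f : Fin 9 → ℝ) (x : ℝ), ∑ i, f i ^ 2 = 9 → -∑ i, -f i ^ 2 * x = 9 * x := by
    intro f x h
    rw [← Finset.sum_mul, Finset.sum_neg_distrib, h]; ring
  ext j
  rw [PiLp.neg_apply, WithLp.ofLp_sum, Finset.sum_apply]
  fin_cases j
  exacts [key _ _ sa, key _ _ sa, key _ _ sb, key _ _ sb, key _ _ sc, key _ _ sc, key _ _ sd,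
    key _ _ sd, key _ _ sd, key _ _ sd, key _ _ sd, key _ _ sd, key _ _ sd, key _ _ sd]

lemma lap_U : LapEq 9 M fU (fun x => 9 / 4 * fU x) := by
  intro p hp
  obtain ⟨u, hu, ho⟩ := frame hp
  refine ⟨fun i => cur (ca i) (cb i) (cs i) p (u i),
    fun i => ⟨cur_geo _ _ _ hp (hu i).1 (hu i).2, cur_zero _ _ _ _ _⟩, ho, ?_⟩
  simp only [dd_fU]
  have sc : ∑ i, (ca i - cb i) ^ 2 = 9 / 4 := by
    simp [Fin.sum_univ_succ, ca, cb]; norm_num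
  rw [← Finset.sum_mul, Finset.sum_neg_distrib, sc]; ring

theorem main : ∃ (n d : ℕ) (M : Set (EuclideanSpace ℝ (Fin (n + 2))))
    (F : EuclideanSpace ℝ (Fin (n + 2)) → Fin (n + 2 - d) → ℝ),
    2 / 3 * (n : ℝ) + 1 ≤ d ∧ d ≤ n ∧ ContDiff ℝ ∞ F ∧ M = F ⁻¹' {0} ∧
    (∀ x ∈ M, Function.Surjective (fderiv ℝ F x)) ∧
    IsCompact M ∧ IsConnected M ∧ M ⊆ Metric.sphere 0 1 ∧
    LapEq d M (fun x => x) (fun x => (d : ℝ) • x) ∧
    ∃ (f : EuclideanSpace ℝ (Fin (n + 2)) → ℝ) (l : ℝ), ContDiff ℝ ∞ f ∧ (∃ x ∈ M, f x ≠ 0) ∧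
      0 < l ∧ l < d ∧ LapEq d M f (fun x => l * f x) := by
  refine ⟨12, 9, M, FF, by norm_num, by norm_num, FF_smooth, rfl, fun x hx => FF_surj hx, M_compact,
    M_conn, M_sphere, by simpa using lap_id, fU, 9 / 4, ?_, ?_, by norm_num, by norm_num, lap_U⟩
  · unfold fU; fun_prop
  · have h : √(8 / 135) * √(8 / 135) = 8 / 135 := Real.mul_self_sqrt (by norm_num)
    have h' : √(7 / 9) * √(7 / 9) = 7 / 9 := Real.mul_self_sqrt (by norm_num)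
    refine ⟨par (⟨√(8 / 135), 0⟩, ⟨√(8 / 135), 0⟩, !₂[√(7 / 9), 0, 0, 0, 0, 0, 0, 0]),
      mem_M.2 ⟨?_, ?_, rfl, rfl, ?_⟩, ?_⟩
    · show √(8 / 135) ^ 2 + 0 ^ 2 = _
      linear_combination h
    · show √(8 / 135) ^ 2 + 0 ^ 2 = _
      linear_combination h
    · show √(7 / 9) * √(7 / 9) + 0 * 0 + 0 * 0 + 0 * 0 + 0 * 0 + 0 * 0 + 0 * 0 + 0 * 0 = _
      linear_combination h'
    · show √(8 / 135) * √(8 / 135) + 0 * 0 ≠ 0
      rw [h]; norm_num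

end Pool.Agent.H.MP_b0f4c2_gt
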